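import Pool.Agent.H955Z.Pack.Main

namespace Pool.Agent.Results.MP_9569f1_co.AOddTwo

open Pool.Agent.H955Z.Pack

theorem result (F : Type) [Field F] [Finite F] (hodd : Odd (Nat.card F)) :
    IsLeast {d : ℕ | 0 < d ∧ ∃ P : Set (Set (Submodule F (Fin 4 → F))),
      IsCompletePartialPacking P d} 2 :=
  min_deficiency F hodd

end Pool.Agent.Results.MP_9569f1_co.AOddTwo
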